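import Mathlib

/-!
A digraph with arbitrarily many but not infinitely many edge-disjoint directed double rays.

Vertices: cut vertices `z t`, and split grid vertices `a p h` (entering half) and `b p h`
(leaving half) in column `p` and row `h`.  Row `h` belongs to grid number `tau h` and has
length `len h`; it runs from `z (tau h + 1)` leftwards through the columns
`len h - 1, ..., 0` to `z (tau h)`.  Columns run upwards through all rows.
-/

set_option autoImplicit false

namespace Pool.Agent.P.MP_5d26dc_co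

inductive W : Type
  | z (t : ℕ) : W
  | a (p h : ℕ) : W
  | b (p h : ℕ) : W

def tau (h : ℕ) : ℕ := Nat.sqrt h
def len (h : ℕ) : ℕ := h - Nat.sqrt h * Nat.sqrt h + 1
def row (t y : ℕ) : ℕ := t * t + (y - 1)

lemma tau_mono (h : ℕ) : tau h ≤ tau (h + 1) := Nat.sqrt_le_sqrt (Nat.le_succ h)
lemma tau_le (h : ℕ) : tau h ≤ h := Nat.sqrt_le_self h
lemma lt_tau (h : ℕ) : h < (tau h + 1) * (tau h + 1) := Nat.lt_succ_sqrt h
lemma len_le (h : ℕ) : len h ≤ h + 1 := by unfold len; omega
lemma len_pos (h : ℕ) : 1 ≤ len h := by unfold len; omega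
lemma eq_of_tau_len {h k : ℕ} (h1 : tau h = tau k) (h2 : len h = len k) : h = k := by
  unfold tau at h1
  unfold len at h2
  have a1 := Nat.sqrt_le h
  have a2 := Nat.sqrt_le k
  rw [h1] at h2 a1
  omega
lemma tau_row {t y : ℕ} (hy : y ≤ 2 * t + 1) : tau (row t y) = t := by
  unfold tau row
  exact Nat.sqrt_add_eq t (by omega)
lemma len_row {t y : ℕ} (h1 : 1 ≤ y) (hy : y ≤ 2 * t + 1) : len (row t y) = y := by
  have := tau_row hy
  unfold tau at this
  unfold len
  rw [this]
  unfold row
  omega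

def A : W → W → Prop
  | .a p h, .b q k => q = p ∧ k = h ∧ p ≤ h
  | .b p h, .a q k => (p = q + 1 ∧ k = h ∧ p < len h) ∨ (q = p ∧ k = h + 1 ∧ p ≤ h)
  | .b p h, .z t => p = 0 ∧ t = tau h
  | .z t, .a q k => t = tau k + 1 ∧ q + 1 = len k
  | _, _ => False

def valid : W → Prop
  | .z _ => True
  | .a p h => p ≤ h
  | .b p h => p ≤ h

def lev : W → ℕ
  | .z t => 2 * t
  | .a _ h => 2 * tau h + 1
  | .b _ h => 2 * tau h + 1

def col : W → ℕ
  | .z _ => 0
  | .a p _ => p
  | .b p _ => p

lemma valid_of_A {u v : W} (h : A u v) : valid u := by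
  cases u <;> cases v <;> simp only [A, valid] at * <;> try omega
  rename_i p h' q k
  have := len_le h'
  omega

lemma lev_step {u v : W} (h : A u v) : lev u ≤ lev v + 1 := by
  cases u <;> cases v <;> simp only [A, lev] at * <;> try omega
  · obtain ⟨_, h2, _⟩ := h
    subst h2
    omega
  · rename_i p h' q k
    have := tau_mono h'
    rcases h with ⟨_, h2, _⟩ | ⟨_, h2, _⟩ <;> subst h2 <;> omega

lemma eq_z_of_lev {v : W} {t : ℕ} (h : lev v = 2 * t) : v = .z t := by
  cases v <;> simp only [lev] at h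
  · congr 1
    omega
  · omega
  · omega

lemma finite_lev (c : ℕ) : {v : W | valid v ∧ lev v ≤ c}.Finite := by
  have hB : (Set.Iic ((c + 1) * (c + 1)) ×ˢ Set.Iic ((c + 1) * (c + 1)) : Set (ℕ × ℕ)).Finite :=
    (Set.finite_Iic _).prod (Set.finite_Iic _)
  have key : ∀ h : ℕ, 2 * tau h + 1 ≤ c → h ≤ (c + 1) * (c + 1) := by
    intro h hh
    have h1 := lt_tau h
    have h2 : (tau h + 1) * (tau h + 1) ≤ (c + 1) * (c + 1) :=
      Nat.mul_le_mul (by omega) (by omega)
    omega
  refine ((((Set.finite_Iic c).image W.z).union (hB.image fun x => W.a x.1 x.2)).union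
    (hB.image fun x => W.b x.1 x.2)).subset ?_
  rintro v ⟨hv, hl⟩
  cases v with
  | z t =>
    simp only [lev] at hl
    exact Or.inl (Or.inl ⟨t, by simp only [Set.mem_Iic]; omega, rfl⟩)
  | a p h =>
    simp only [lev, valid] at hl hv
    have := key h hl
    exact Or.inl (Or.inr ⟨(p, h), ⟨by simp only [Set.mem_Iic]; omega,
      by simp only [Set.mem_Iic]; omega⟩, rfl⟩)
  | b p h =>
    simp only [lev, valid] at hl hv
    have := key h hl
    exact Or.inr ⟨(p, h), ⟨by simp only [Set.mem_Iic]; omega,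
      by simp only [Set.mem_Iic]; omega⟩, rfl⟩

section ray

variable {R : ℤ → W}

/-- Every double ray visits all cut vertices above the level of `R m` before time `m`. -/
lemma visit (hi : Function.Injective R) (ha : ∀ n, A (R n) (R (n + 1))) (m : ℤ) (t : ℕ)
    (hm : lev (R m) ≤ 2 * t) : ∃ n ≤ m, R n = .z t := by
  have h1 : ∃ n ≤ m, 2 * t < lev (R n) := by
    by_contra hcon
    push Not at hcon
    have hinf : (R '' Set.Iic m).Infinite := (Set.Iic_infinite m).image hi.injOn
    refine hinf ((finite_lev (2 * t)).subset ?_)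
    rintro v ⟨n, hn, rfl⟩
    exact ⟨valid_of_A (ha n), hcon n hn⟩
  obtain ⟨n', hn', hl⟩ := h1
  by_contra hcon
  push Not at hcon
  have key : ∀ j : ℕ, n' + j ≤ m → 2 * t < lev (R (n' + j)) := by
    intro j
    induction j with
    | zero => intro _; simpa using hl
    | succ j ih =>
      intro hj
      have h2 := ih (by push_cast at hj; omega)
      have h3 := lev_step (ha (n' + j))
      have h4 : n' + ((j + 1 : ℕ) : ℤ) = n' + j + 1 := by push_cast; ring
      rw [h4] at hj ⊢
      rcases Nat.lt_or_ge (2 * t) (lev (R (n' + j + 1))) with h5 | h5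
      · exact h5
      · exact absurd (eq_z_of_lev (by omega)) (hcon _ hj)
  have h6 := key (m - n').toNat (by omega)
  have h7 : n' + ((m - n').toNat : ℤ) = m := by omega
  rw [h7] at h6
  omega

/-- Every double ray ends in one column and uses all its late split arcs. -/
lemma column (hi : Function.Injective R) (ha : ∀ n, A (R n) (R (n + 1))) :
    ∃ p h0 : ℕ, ∀ h, h0 ≤ h → ∃ n, R n = .a p h ∧ R (n + 1) = .b p h := by
  obtain ⟨m, hm⟩ : ∃ m, ∀ n, lev (R m) ≤ lev (R n) :=
    ⟨Function.argmin (fun n => lev (R n)), fun n => Function.argmin_le (fun n => lev (R n)) n⟩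
  have hz : ∀ n, m < n → ∀ t, R n ≠ .z t := by
    intro n hn t hnt
    have h1 := hm n
    rw [hnt] at h1
    obtain ⟨n', hn', h2⟩ := visit hi ha m t h1
    have := hi (h2.trans hnt.symm)
    omega
  obtain ⟨j0, hj0⟩ : ∃ j0 : ℕ, ∀ j : ℕ, col (R (m + 1 + j0)) ≤ col (R (m + 1 + j)) :=
    ⟨Function.argmin (fun j : ℕ => col (R (m + 1 + j))),
      fun j => Function.argmin_le (fun j : ℕ => col (R (m + 1 + j))) j⟩
  set p := col (R (m + 1 + j0)) with hp
  have hmin : ∀ n, m < n → p ≤ col (R n) := by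
    intro n hn
    have := hj0 (n - m - 1).toNat
    have h7 : m + 1 + ((n - m - 1).toNat : ℤ) = n := by omega
    rwa [h7] at this
  have stepA : ∀ n h, R n = .a p h → R (n + 1) = .b p h := by
    intro n h hn
    have h1 := ha n
    rw [hn] at h1
    cases hv : R (n + 1) <;> rw [hv] at h1 <;> simp only [A] at h1
    obtain ⟨h2, h3, _⟩ := h1
    rw [h2, h3]
  have stepB : ∀ n h, m < n → R n = .b p h → R (n + 1) = .a p (h + 1) := by
    intro n h hmn hn
    have h1 := ha n
    rw [hn] at h1
    have h5 := hmin (n + 1) (by omega)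
    cases hv : R (n + 1) <;> rw [hv] at h1 <;> simp only [A] at h1
    · exact absurd hv (hz _ (by omega) _)
    · rw [hv] at h5
      simp only [col] at h5
      rcases h1 with ⟨h2, _, _⟩ | ⟨h2, h3, _⟩
      · omega
      · rw [h2, h3]
  have base : ∃ h0 n, m < n ∧ R n = .a p h0 := by
    cases hv : R (m + 1 + j0) with
    | z t => exact absurd hv (hz _ (by omega) _)
    | a q h =>
      have : p = q := by rw [hp, hv]; rfl
      exact ⟨h, m + 1 + j0, by omega, by rw [hv, this]⟩
    | b q h =>
      have : p = q := by rw [hp, hv]; rfl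
      exact ⟨h + 1, m + 1 + j0 + 1, by omega, stepB _ _ (by omega) (by rw [hv, this])⟩
  obtain ⟨h0, hb⟩ := base
  refine ⟨p, h0, fun h hh => ?_⟩
  have : ∃ n, m < n ∧ R n = .a p h := by
    induction h, hh using Nat.le_induction with
    | base => exact hb
    | succ h _ ih =>
      obtain ⟨n, hn, h1⟩ := ih
      exact ⟨n + 1 + 1, by omega, stepB _ _ (by omega) (stepA _ _ h1)⟩
  obtain ⟨n, _, h1⟩ := this
  exact ⟨n, h1, stepA _ _ h1⟩

def rightOf (p h0 : ℕ) : W → Prop
  | .z _ => False
  | .a q h => p < q ∧ h0 ≤ h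
  | .b q h => p < q ∧ h0 ≤ h

/-- A double ray avoiding the late part of column `p` enters late grids on short rows. -/
lemma short (hi : Function.Injective R) (ha : ∀ n, A (R n) (R (n + 1))) (p h0 : ℕ)
    (hav : ∀ n h, h0 ≤ h → R n ≠ .a p h) :
    ∃ t0 : ℕ, ∀ t, t0 ≤ t → ∃ n k, R n = .z (t + 1) ∧ R (n + 1) = .a (len k - 1) k ∧
      tau k = t ∧ len k ≤ p := by
  refine ⟨lev (R 0) + h0, fun t ht => ?_⟩
  obtain ⟨n1, _, h1⟩ := visit hi ha 0 t (by omega)
  obtain ⟨n, hn, h2⟩ := visit hi ha n1 (t + 1) (by rw [h1]; simp only [lev]; omega)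
  have hne : n ≠ n1 := by
    intro h
    rw [h, h1] at h2
    injection h2 with h3
    omega
  have h3 := ha n
  rw [h2] at h3
  cases hv : R (n + 1) <;> rw [hv] at h3 <;> simp only [A] at h3
  rename_i q k
  obtain ⟨h4, h5⟩ := h3
  have hk := tau_le k
  refine ⟨n, k, h2, by rw [hv]; congr 1; omega, by omega, ?_⟩
  by_contra hcon
  have hq : q ≠ p := by
    intro h
    exact hav (n + 1) k (by omega) (by rw [hv, h])
  have key : ∀ j : ℕ, rightOf p h0 (R (n + 1 + j)) := by
    intro j
    induction j with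
    | zero =>
      simp only [Nat.cast_zero, add_zero]
      rw [hv]
      exact ⟨by omega, by omega⟩
    | succ j ih =>
      have h4 : n + 1 + ((j + 1 : ℕ) : ℤ) = n + 1 + j + 1 := by push_cast; ring
      rw [h4]
      have h6 := ha (n + 1 + j)
      have h7 := hav (n + 1 + j + 1)
      cases hu : R (n + 1 + j) <;> cases hw : R (n + 1 + j + 1) <;> rw [hu] at ih h6 <;>
        rw [hw] at h6 <;> simp only [A, rightOf] at ih h6 ⊢ <;> try omega
      rename_i p1 k1 p2 k2
      have h8 : p2 ≠ p := by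
        intro h
        exact h7 k2 (by omega) (by rw [hw, h])
      omega
  have h6 := key (n1 - n - 1).toNat
  have h7 : n + 1 + ((n1 - n - 1).toNat : ℤ) = n1 := by omega
  rw [h7, h1] at h6
  exact h6

end ray

theorem not_infinite (R : ℕ → ℤ → W) (hi : ∀ i, Function.Injective (R i))
    (ha : ∀ i n, A (R i n) (R i (n + 1)))
    (hd : ∀ i j, i ≠ j → ∀ m n : ℤ, ¬ (R i m = R j n ∧ R i (m + 1) = R j (n + 1))) : False := by
  obtain ⟨p, h0, hc⟩ := column (hi 0) (ha 0)
  have hav : ∀ i n h, h0 ≤ h → R (i + 1) n ≠ .a p h := by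
    intro i n h hh hn
    obtain ⟨m, h1, h2⟩ := hc h hh
    have h3 := ha (i + 1) n
    rw [hn] at h3
    cases hv : R (i + 1) (n + 1) <;> rw [hv] at h3 <;> simp only [A] at h3
    obtain ⟨h4, h5, _⟩ := h3
    refine hd 0 (i + 1) (by omega) m n ⟨by rw [h1, hn], by rw [h2, hv, h4, h5]⟩
  choose t0 ht0 using fun i => short (hi (i + 1)) (ha (i + 1)) p h0 (hav i)
  set t := ∑ i ∈ Finset.range (p + 1), t0 i with ht
  have hle : ∀ i ∈ Finset.range (p + 1), t0 i ≤ t := fun i hi =>
    Finset.single_le_sum (f := t0) (fun _ _ => Nat.zero_le _) hi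
  have hex : ∀ i, ∃ n k, i ∈ Finset.range (p + 1) → (R (i + 1) n = .z (t + 1) ∧
      R (i + 1) (n + 1) = .a (len k - 1) k ∧ tau k = t ∧ len k ≤ p) := by
    intro i
    by_cases hi' : i ∈ Finset.range (p + 1)
    · obtain ⟨n, k, h⟩ := ht0 i t (hle i hi')
      exact ⟨n, k, fun _ => h⟩
    · exact ⟨0, 0, fun h => absurd h hi'⟩
  choose nn kk hnk using hex
  obtain ⟨i, hi', j, hj', hij, he⟩ := Finset.exists_ne_map_eq_of_card_lt_of_maps_to
    (s := Finset.range (p + 1)) (t := Finset.range p) (f := fun i => len (kk i) - 1)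
    (by simp) (by
      intro i hi'
      have h1 := (hnk i hi').2.2.2
      have h2 := len_pos (kk i)
      simp only [Finset.coe_range, Set.mem_Iio]
      omega)
  obtain ⟨a1, a2, a3, _⟩ := hnk i hi'
  obtain ⟨b1, b2, b3, _⟩ := hnk j hj'
  have h1 := len_pos (kk i)
  have h2 := len_pos (kk j)
  have hk : kk i = kk j := eq_of_tau_len (by omega) (by omega)
  exact hd (i + 1) (j + 1) (by omega) (nn i) (nn j) ⟨by rw [a1, b1], by rw [a2, b2, hk]⟩

lemma glue (f g : ℕ → W) (hf : Function.Injective f) (hg : Function.Injective g)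
    (hfg : ∀ i j, f i ≠ g j) (af : ∀ n, A (f n) (f (n + 1))) (ag : ∀ n, A (g (n + 1)) (g n))
    (a0 : A (g 0) (f 0)) :
    ∃ R : ℤ → W, Function.Injective R ∧ (∀ n, A (R n) (R (n + 1))) ∧
      ∀ n, (∃ i, R n = f i) ∨ (∃ j, R n = g j) := by
  refine ⟨fun n => if 0 ≤ n then f n.toNat else g (-n - 1).toNat, ?_, ?_, ?_⟩
  · intro m n h
    simp only at h
    split_ifs at h with h1 h2 h2
    · have := hf h
      omega
    · exact absurd h (hfg _ _)
    · exact absurd h.symm (hfg _ _)
    · have := hg h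
      omega
  · intro n
    simp only
    split_ifs with h1 h2 h2
    · have : (n + 1).toNat = n.toNat + 1 := by omega
      rw [this]
      exact af _
    · omega
    · have e1 : (n + 1).toNat = 0 := by omega
      have e2 : (-n - 1).toNat = 0 := by omega
      rw [e1, e2]
      exact a0
    · have : (-n - 1).toNat = (-(n + 1) - 1).toNat + 1 := by omega
      rw [this]
      exact ag _
  · intro n
    simp only
    split_ifs
    · exact Or.inl ⟨_, rfl⟩
    · exact Or.inr ⟨_, rfl⟩

def fv (c h0 n : ℕ) : W := if n % 2 = 0 then .a c (h0 + n / 2) else .b c (h0 + n / 2)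

def bv (T y q r : ℕ) : W :=
  if r = 0 then .z (T + 1 + q)
  else if r % 2 = 1 then .b ((r - 1) / 2) (row (T + 1 + q) y)
  else .a ((r - 1) / 2) (row (T + 1 + q) y)

def own (y c : ℕ) : W → Prop
  | .z _ => True
  | .a p h => p = c ∨ (p < y ∧ len h = y)
  | .b p h => p = c ∨ (p < y ∧ len h = y)

lemma succ_div_mod (d j : ℕ) (hd : 0 < d) :
    (j % d + 1 < d ∧ (j + 1) / d = j / d ∧ (j + 1) % d = j % d + 1) ∨
    (j % d + 1 = d ∧ (j + 1) / d = j / d + 1 ∧ (j + 1) % d = 0) := by
  have h1 := Nat.mod_lt j hd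
  have h2 := Nat.mod_add_div j d
  rcases Nat.lt_or_ge (j % d + 1) d with h | h
  · left
    have := (Nat.div_mod_unique hd (a := j + 1) (c := j % d + 1) (d := j / d)).2 ⟨by omega, h⟩
    exact ⟨h, this.1, this.2⟩
  · right
    have := (Nat.div_mod_unique hd (a := j + 1) (c := 0) (d := j / d + 1)).2
      ⟨by rw [Nat.mul_add]; omega, hd⟩
    exact ⟨by omega, this.1, this.2⟩

lemma one_ray (T y c : ℕ) (hy : 1 ≤ y) (hyc : y ≤ c) (hc : c ≤ 2 * T) :
    ∃ R : ℤ → W, Function.Injective R ∧ (∀ n, A (R n) (R (n + 1))) ∧ ∀ n, own y c (R n) := by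
  have hd : 0 < 2 * y + 1 := by omega
  have htau : ∀ q, tau (row (T + 1 + q) y) = T + 1 + q := fun q => tau_row (by omega)
  have hlen : ∀ q, len (row (T + 1 + q) y) = y := fun q => len_row hy (by omega)
  have hrow : ∀ q q', row (T + 1 + q) y = row (T + 1 + q') y → q = q' := by
    intro q q' h
    have h1 := htau q
    rw [h, htau] at h1
    omega
  have hc0 : c ≤ row T (c + 1) := by unfold row; omega
  obtain ⟨R, h1, h2, h3⟩ := glue (fv c (row T (c + 1)))
    (fun j => bv T y (j / (2 * y + 1)) (j % (2 * y + 1))) (by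
      intro m n h
      unfold fv at h
      split_ifs at h <;> (injection h; omega))
    (by
      intro m n h
      have e1 := Nat.mod_add_div m (2 * y + 1)
      have e2 := Nat.mod_add_div n (2 * y + 1)
      have : m / (2 * y + 1) = n / (2 * y + 1) ∧ m % (2 * y + 1) = n % (2 * y + 1) := by
        simp only [bv] at h
        split_ifs at h <;> first
          | (injection h with h1 h2; exact ⟨hrow _ _ h2, by omega⟩)
          | (injection h with h1; exact ⟨by omega, by omega⟩)
      rw [← e1, ← e2, this.1, this.2])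
    (by
      intro m n h
      have e1 := Nat.mod_lt n hd
      simp only [fv, bv] at h
      split_ifs at h <;> (injection h with h1 h2; omega))
    (by
      intro n
      unfold fv
      split_ifs <;> simp only [A, true_and] <;> omega)
    (by
      intro j
      have e0 := htau (j / (2 * y + 1))
      have e1 := hlen (j / (2 * y + 1))
      have e2 := len_le (row (T + 1 + j / (2 * y + 1)) y)
      rcases succ_div_mod (2 * y + 1) j hd with ⟨a1, a2, a3⟩ | ⟨a1, a2, a3⟩
      · simp only [a2, a3]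
        clear a2 a3
        generalize j / (2 * y + 1) = q at *
        generalize j % (2 * y + 1) = r at *
        unfold bv
        split_ifs <;> simp only [A, true_and] <;>
          first | omega | contradiction
      · simp only [a2, a3, bv]
        split_ifs <;> simp only [A] <;> omega)
    (by
      have e0 : tau (row T (c + 1)) = T := tau_row (by omega)
      have e1 : len (row T (c + 1)) = c + 1 := len_row (by omega) (by omega)
      simp [fv, bv, A, e0, e1])
  refine ⟨R, h1, h2, fun n => ?_⟩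
  rcases h3 n with ⟨i, h⟩ | ⟨j, h⟩
  · rw [h]
    unfold fv
    split_ifs <;> exact Or.inl rfl
  · rw [h]
    have e1 := hlen (j / (2 * y + 1))
    have e2 := Nat.mod_lt j hd
    simp only [bv]
    split_ifs <;> simp only [own] <;> omega

theorem many (k : ℕ) : ∃ R : Fin k → ℤ → W, (∀ i, Function.Injective (R i)) ∧
    (∀ i n, A (R i n) (R i (n + 1))) ∧
    (∀ i j, i ≠ j → ∀ m n : ℤ, ¬ (R i m = R j n ∧ R i (m + 1) = R j (n + 1))) := by
  choose R h1 h2 h3 using fun i : Fin k =>
    one_ray k (i + 1) (k + i) (by omega) (by have := i.2; omega) (by have := i.2; omega)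
  refine ⟨R, h1, h2, ?_⟩
  rintro i j hij m n ⟨e1, e2⟩
  have hij' : (i : ℕ) ≠ j := fun h => hij (Fin.ext h)
  have hi := i.2
  have hj := j.2
  have a1 := h3 i m
  have a2 := h3 j n
  have a3 := h3 i (m + 1)
  have a4 := h3 j (n + 1)
  have a5 := h2 i m
  rw [← e1] at a2
  rw [← e2] at a4
  cases hu : R i m <;> cases hw : R i (m + 1) <;> rw [hu] at a1 a2 a5 <;>
    rw [hw] at a3 a4 a5 <;> simp only [A, own] at a1 a2 a3 a4 a5 <;> omega

end Pool.Agent.P.MP_5d26dc_co
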